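import Pool.Agent.Lib.MP_10e784_agHR.R9
import Pool.Agent.Lib.MP_10e784_agH.Defs

/-!
# Block R2: the interface of the moonshot (hyperelliptic curves)
-/

set_option autoImplicit false

namespace HYR

theorem factR2 : HY.FactR2 := by
  refine ⟨2, fun a b hb hd => ?_⟩
  have h := few_short hb hd
  have e1 : 27 * (3 * b - a ^ 2) = 81 * b - 27 * a ^ 2 := by ring
  have e2 : 27 * a * (2 * a ^ 2 - 9 * b) = 54 * a ^ 3 - 243 * (a * b) := by ring
  rw [e1, e2] at h
  exact h

end HYR
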