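import Pool.Agent.Lib.MP_1a91b9_nuI.Ho.Hom
import Pool.Agent.Lib.MP_1a91b9_nuI.Glob
import Pool.Agent.Lib.MP_10e784_agBS.Defs

/-!
# Hyperelliptic curves, block R2 (descent by 2-isogeny over `ℚ`): definitions

`E2 a b` is the curve `y² = x³ + a x² + b x` (`MP_1a91b9_nuI.Defs`), `Rel2 W W'` says `W = E2 a b`, `W' = E2 (-2 a) (a² - 4 b)`
(with `2`, `b`, `a² - 4 b` not zero), `phi2 h : W(F) → W'(F)` is the isogeny with kernel `{0, (0, 0)}` (`MP_1a91b9_nuI.Phi`), a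
homomorphism by `phi2_add` (`MP_1a91b9_nuI.Ho.Hom`), and `tp W V C h : V(F) → W(F)` is the substitution (a bijective homomorphism: `tp_add`,
`tp_bij`).
-/

set_option autoImplicit false

namespace HYR

open WeierstrassCurve Pool.Agent.Lib.MP_1a91b9_nuI

section
variable {F : Type*} [Field F]

/-- a nonzero square -/
def Sq (x : F) : Prop := ∃ u : F, u ≠ 0 ∧ x = u ^ 2

open Classical in
/-- the descent map: `x(P)`, but `1` at the point at infinity and the coefficient `a₄` at `(0, 0)` -/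
noncomputable def alp (W : WeierstrassCurve F) : W.toAffine.Point → F
  | .zero => 1
  | .some x _ _ => if x = 0 then W.a₄ else x

theorem rel2 (h2 : (2 : F) ≠ 0) {a b : F} (hb : b ≠ 0) (hb' : a ^ 2 - 4 * b ≠ 0) :
    Rel2 (E2 a b) (E2 (-2 * a) (a ^ 2 - 4 * b)) where
  two := h2
  a₁ := rfl
  a₃ := rfl
  a₆ := rfl
  a₁' := rfl
  a₃' := rfl
  a₆' := rfl
  a₂' := rfl
  a₄' := rfl
  b0 := hb
  b0' := hb'

theorem rel2' (h2 : (2 : F) ≠ 0) {a b : F} (hb : b ≠ 0) (hb' : a ^ 2 - 4 * b ≠ 0) :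
    Rel2 (E2 (-2 * a) (a ^ 2 - 4 * b)) (E2 (-2 * (-2 * a)) ((-2 * a) ^ 2 - 4 * (a ^ 2 - 4 * b))) := by
  refine rel2 h2 hb' ?_
  have h1 : (-2 * a) ^ 2 - 4 * (a ^ 2 - 4 * b) = 2 ^ 4 * b := by ring
  rw [h1]
  exact mul_ne_zero (pow_ne_zero 4 h2) hb

/-- the dual isogeny `E2 (-2 a) (a² - 4 b) → E2 a b`, `(x, y) ↦ (y² / (4 x²), y (x² - b') / (8 x²))` -/
noncomputable def psi (h2 : (2 : F) ≠ 0) {a b : F} (hb : b ≠ 0) (hb' : a ^ 2 - 4 * b ≠ 0)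
    (P : (E2 (-2 * a) (a ^ 2 - 4 * b)).toAffine.Point) : (E2 a b).toAffine.Point :=
  tp (E2 a b) (E2 (-2 * (-2 * a)) ((-2 * a) ^ 2 - 4 * (a ^ 2 - 4 * b))) ⟨(Units.mk0 2 h2)⁻¹, 0, 0, 0⟩
    (E2_dual h2 a b).symm (phi2 (rel2' h2 hb hb') P)

theorem psi_add [DecidableEq F] (h2 : (2 : F) ≠ 0) {a b : F} (hb : b ≠ 0) (hb' : a ^ 2 - 4 * b ≠ 0)
    (P Q : (E2 (-2 * a) (a ^ 2 - 4 * b)).toAffine.Point) :
    psi h2 hb hb' (P + Q) = psi h2 hb hb' P + psi h2 hb hb' Q := by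
  unfold psi
  rw [phi2_add, tp_add]

end

end HYR
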