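import Pool.Agent.Lib.MP_10e784_agHR.Defs

/-!
# Block R2, leaf R1: points whose `x`-coordinate is a square are in the image of the isogeny

`P = O`: take `Q = O`. `P = (X, Y)`, `X ≠ 0`, `X = u²`: `Y² = X (X² + a' X + b')`, `a' = -2 a`, `b' = a² - 4 b`
(`a = W.a₂`, `b = W.a₄`; fields of `h`; the equation of a point: `nons`). Put `x = (X - a + Y / u) / 2`, `x₂ = (X - a - Y / u) / 2`.
`x x₂ = ((X - a)² - Y² / X) / 4 = b` since `Y² / u² = Y² / X = X² - 2 a X + a² - 4 b`; so `x ≠ 0` and `x₂ = b / x`,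
`x + a + b / x = X`. Put `y = x u`: `y² = x² X = x³ + a x² + b x`, and `y (1 - b / x²) = u (x - x₂) = Y`. So `phi2 h (x, y) = (X, Y)`
(`phi2` of a point with `x ≠ 0`: see `R2B_neg` in `MP_1a91b9_nuI/Ho/R2B.lean`, copy it).
`X = 0`: then `Y = 0` and `W'.a₄ = a² - 4 b = u²`: put `x = (-a + u) / 2`, `y = 0`: `x (x + a) = (u² - a²) / 4 = -b`, so `x ≠ 0` and
`x² + a x + b = 0`, `x³ + a x² + b x = 0 = y²`, `x + a + b / x = 0`.
-/

set_option autoImplicit false

namespace HYR

open WeierstrassCurve Pool.Agent.Lib.MP_1a91b9_nuI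

private theorem R1_neg {F : Type*} [Field F] {W W' : WeierstrassCurve F} (h : Rel2 W W') {x y : F}
    (hP : W.toAffine.Nonsingular x y) (hx : x ≠ 0) :
    ∃ h', phi2 h (Affine.Point.some x y hP) =
      Affine.Point.some (x + W.a₂ + W.a₄ / x) (y * (1 - W.a₄ / x ^ 2)) h' := by
  refine ⟨?_, ?_⟩
  · rw [nons W' h.Δ' h.a₁' h.a₃', h.a₂', h.a₄', h.a₆', add_zero]
    apply phi2_eqn _ _ _ _ hx
    rw [nons W h.Δ h.a₁ h.a₃, h.a₆, add_zero] at hP
    exact hP
  · unfold phi2
    simp only [hx, dite_false]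

private theorem R1_main {F : Type*} [Field F] {W W' : WeierstrassCurve F} (h : Rel2 W W') {X Y : F}
    (hQ : W'.toAffine.Nonsingular X Y) {x y : F} (hx : x ≠ 0)
    (h1 : y ^ 2 = x ^ 3 + W.a₂ * x ^ 2 + W.a₄ * x) (h2 : x + W.a₂ + W.a₄ / x = X)
    (h3 : y * (1 - W.a₄ / x ^ 2) = Y) :
    ∃ Q : W.toAffine.Point, phi2 h Q = Affine.Point.some X Y hQ := by
  have hP : W.toAffine.Nonsingular x y := by
    rw [nons W h.Δ h.a₁ h.a₃, h.a₆, add_zero]
    exact h1
  refine ⟨Affine.Point.some x y hP, ?_⟩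
  obtain ⟨h4, e⟩ := R1_neg h hP hx
  rw [e, Affine.Point.some.injEq]
  exact ⟨h2, h3⟩

theorem phi2_sq {F : Type*} [Field F] {W W' : WeierstrassCurve F} (h : Rel2 W W') (P : W'.toAffine.Point)
    (hP : Sq (alp W' P)) : ∃ Q : W.toAffine.Point, phi2 h Q = P := by
  have h2 := h.two
  have h4 : (4 : F) ≠ 0 := by
    have h2' : (4 : F) = 2 ^ 2 := by norm_num
    rw [h2']
    exact pow_ne_zero 2 h.two
  have hb := h.b0
  rcases P with _ | ⟨X, Y, hQ⟩
  · exact ⟨Affine.Point.zero, rfl⟩
  · have hE : Y ^ 2 = X ^ 3 - 2 * W.a₂ * X ^ 2 + (W.a₂ ^ 2 - 4 * W.a₄) * X := by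
      have hQ' := hQ
      rw [nons W' h.Δ' h.a₁' h.a₃', h.a₂', h.a₄', h.a₆', add_zero] at hQ'
      linear_combination hQ'
    obtain ⟨u, hu, hu2⟩ := hP
    by_cases hX : X = 0
    · have hu3 : W.a₂ ^ 2 - 4 * W.a₄ = u ^ 2 := by
        have e : alp W' (Affine.Point.some X Y hQ) = W'.a₄ := by
          unfold alp
          simp only [hX, if_true]
        rw [e, h.a₄'] at hu2
        exact hu2
      have hY : Y = 0 := by
        have h5 : Y ^ 2 = 0 := by
          rw [hE, hX]
          ring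
        exact pow_eq_zero_iff two_ne_zero |>.1 h5
      obtain ⟨x, hx2⟩ : ∃ x, 2 * x = -W.a₂ + u := ⟨(-W.a₂ + u) / 2, by field_simp⟩
      have hxe : x ^ 2 + W.a₂ * x + W.a₄ = 0 := by
        have h5 : 4 * (x ^ 2 + W.a₂ * x + W.a₄) = 0 := by
          linear_combination (2 * x + (-W.a₂ + u) + 2 * W.a₂) * hx2 - hu3
        exact (mul_eq_zero.1 h5).resolve_left h4
      have hx0 : x ≠ 0 := by
        intro h0
        rw [h0] at hxe
        apply hb
        linear_combination hxe
      refine R1_main h hQ (x := x) (y := 0) hx0 ?_ ?_ ?_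
      · linear_combination (-x) * hxe
      · rw [hX]
        field_simp
        linear_combination hxe
      · rw [hY, zero_mul]
    · have hu3 : X = u ^ 2 := by
        have e : alp W' (Affine.Point.some X Y hQ) = X := by
          unfold alp
          simp only [hX, if_false]
        rw [e] at hu2
        exact hu2
      obtain ⟨v, hv⟩ : ∃ v, u * v = Y := ⟨Y / u, by field_simp⟩
      have hv2 : v ^ 2 = X ^ 2 - 2 * W.a₂ * X + (W.a₂ ^ 2 - 4 * W.a₄) := by
        apply mul_left_cancel₀ hX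
        have h5 : X * v ^ 2 = Y ^ 2 := by
          rw [← hv, hu3]
          ring
        rw [h5, hE]
        ring
      obtain ⟨x, hx2⟩ : ∃ x, 2 * x = X - W.a₂ + v := ⟨(X - W.a₂ + v) / 2, by field_simp⟩
      obtain ⟨x', hx2'⟩ : ∃ x', 2 * x' = X - W.a₂ - v := ⟨(X - W.a₂ - v) / 2, by field_simp⟩
      have hxx : x * x' = W.a₄ := by
        apply mul_left_cancel₀ h4
        linear_combination (2 * x') * hx2 + (X - W.a₂ + v) * hx2' - hv2
      have hsum : x + W.a₂ + x' = X := by
        apply mul_left_cancel₀ h2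
        linear_combination hx2 + hx2'
      have hdif : x - x' = v := by
        apply mul_left_cancel₀ h2
        linear_combination hx2 - hx2'
      have hx0 : x ≠ 0 := by
        intro h0
        rw [h0, zero_mul] at hxx
        exact hb hxx.symm
      have hq : W.a₄ / x = x' := by
        rw [← hxx]
        field_simp
      refine R1_main h hQ (x := x) (y := x * u) hx0 ?_ ?_ ?_
      · rw [← hxx]
        linear_combination (-(x ^ 2)) * hu3 - x ^ 2 * hsum
      · rw [hq, hsum]
      · have e : W.a₄ / x ^ 2 = x' / x := by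
          rw [← hxx]
          field_simp
        rw [e, ← hv, ← hdif]
        field_simp

end HYR
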