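import Pool.Agent.Lib.MP_10e784_agHR.R2a

/-!
# Block R2, leaf R2: the descent map is a homomorphism modulo squares

Cases. `P = O` or `Q = O`: `alp Q²`. `P = (x₁, y₁)`, `Q = (x₂, y₂)`, `y_i² = x_i³ + a x_i² + b x_i` (`nons`, `a = W.a₂`, `b = W.a₄`).
(i) `x₁ = x₂`, `y₁ = -y₂`: `P + Q = O` (`Affine.Point.add_of_Y_eq`), product `(alp P)²`.
(ii) `x₁ = x₂`, `y₁ ≠ -y₂`: then `y₁ = y₂ ≠ 0` (`Affine.Y_eq_of_X_eq` or from the equations), `x₁ ≠ 0`, the slope is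
`(3 x² + 2 a x + b) / (2 y)` (`Affine.slope_of_Y_ne`, `a₁ = a₃ = 0`), `x₃ = addX = L² - a - x - x = ((x² - b) / (2 y))²` (`dbl`); if `x₃ ≠ 0` the
product is `x₃ x²`; if `x₃ = 0` then `x² = b`, the product is `b x² = x⁴`.
(iii) `x₁ ≠ x₂`: the slope is `L = (y₁ - y₂) / (x₁ - x₂)` (`Affine.slope_of_X_ne`), `x₃ = L² - a - x₁ - x₂`.
 `x₁, x₂ ≠ 0`: if `x₃ ≠ 0` the product is `m²` (`gen`), not zero; if `x₃ = 0`: `x₁ x₂ = b` (`gen0`), the product `b x₁ x₂ = b²`.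
 `x₁ = 0` (then `y₁ = 0`, `x₂ ≠ 0`): `x₃ = y₂² / x₂² - a - x₂ = b / x₂ ≠ 0`, the product `(b / x₂) b x₂ = b²`. `x₂ = 0`: the same (or `add_comm`).
Compare `R2A.lean` of `MP_1a91b9_nuI/Ho` for the use of the addition formulas.
-/

set_option autoImplicit false

namespace HYR

open WeierstrassCurve Pool.Agent.Lib.MP_1a91b9_nuI

theorem alp_ne {F : Type*} [Field F] {W W' : WeierstrassCurve F} (h : Rel2 W W') (P : W.toAffine.Point) :
    alp W P ≠ 0 := by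
  rcases P with _ | ⟨x, y, hP⟩
  · exact one_ne_zero
  · classical
    show (if x = 0 then W.a₄ else x) ≠ 0
    by_cases hx : x = 0
    · rw [if_pos hx]
      exact h.b0
    · rw [if_neg hx]
      exact hx

theorem alp_neg {F : Type*} [Field F] {W W' : WeierstrassCurve F} (h : Rel2 W W') (P : W.toAffine.Point) :
    alp W (-P) = alp W P := by
  rcases P with _ | ⟨x, y, hP⟩
  · rfl
  · rfl

private theorem R2_eqn {F : Type*} [Field F] {W W' : WeierstrassCurve F} (h : Rel2 W W') {x y : F}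
    (hP : W.toAffine.Nonsingular x y) : y ^ 2 = x ^ 3 + W.a₂ * x ^ 2 + W.a₄ * x := by
  have h4 := (nons W h.Δ h.a₁ h.a₃ x y).1 hP
  rw [h.a₆, add_zero] at h4
  exact h4

private theorem R2_alp0 {F : Type*} [Field F] {W : WeierstrassCurve F} {x y : F}
    (hP : W.toAffine.Nonsingular x y) (hx : x = 0) : alp W (Affine.Point.some x y hP) = W.a₄ := by
  classical
  show (if x = 0 then W.a₄ else x) = W.a₄
  rw [if_pos hx]

private theorem R2_alp1 {F : Type*} [Field F] {W : WeierstrassCurve F} {x y : F}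
    (hP : W.toAffine.Nonsingular x y) (hx : x ≠ 0) : alp W (Affine.Point.some x y hP) = x := by
  classical
  show (if x = 0 then W.a₄ else x) = x
  rw [if_neg hx]

private theorem R2_alpz {F : Type*} [Field F] {W : WeierstrassCurve F} :
    alp W (0 : W.toAffine.Point) = 1 := rfl

/-- the sum with the point `(0, 0)` -/
private theorem R2_zero {F : Type*} [Field F] [DecidableEq F] {W W' : WeierstrassCurve F} (h : Rel2 W W')
    {x₂ y₁ y₂ : F} (h₁ : W.toAffine.Nonsingular 0 y₁) (h₂ : W.toAffine.Nonsingular x₂ y₂) (hx₂ : x₂ ≠ 0) :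
    Sq (alp W (Affine.Point.some 0 y₁ h₁ + Affine.Point.some x₂ y₂ h₂) * alp W (Affine.Point.some 0 y₁ h₁) *
      alp W (Affine.Point.some x₂ y₂ h₂)) := by
  have e₁ := R2_eqn h h₁
  have e₂ := R2_eqn h h₂
  have hy₁ : y₁ = 0 := by
    have h4 : y₁ ^ 2 = 0 := by rw [e₁]; ring
    exact pow_eq_zero_iff (two_ne_zero) |>.1 h4
  subst hy₁
  have hx : (0 : F) ≠ x₂ := fun h4 => hx₂ h4.symm
  have h0 : (0 : F) - x₂ ≠ 0 := sub_ne_zero.2 hx
  obtain ⟨l, hl⟩ : ∃ l, l = ((0 : F) - y₂) / (0 - x₂) := ⟨_, rfl⟩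
  have hl' : l * (0 - x₂) = 0 - y₂ := by rw [hl, div_mul_cancel₀ _ h0]
  obtain ⟨x₃, hx₃⟩ : ∃ x₃, x₃ = l ^ 2 - W.a₂ - 0 - x₂ := ⟨_, rfl⟩
  obtain ⟨h₃, hadd⟩ := add_pt W h.a₁ h.a₃ h₁ h₂ hx l x₃ _ hl' hx₃ rfl
  have h5 : x₃ * x₂ = W.a₄ := by
    apply mul_right_cancel₀ hx₂
    have h6 : l ^ 2 * x₂ ^ 2 = y₂ ^ 2 := by linear_combination (-(l * x₂) - y₂) * hl'
    rw [hx₃]
    linear_combination h6 + e₂
  have h6 : x₃ ≠ 0 := by
    intro h7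
    apply h.b0
    rw [← h5, h7, zero_mul]
  rw [hadd, R2_alp1 h₃ h6, R2_alp0 h₁ rfl, R2_alp1 h₂ hx₂]
  exact ⟨W.a₄, h.b0, by linear_combination W.a₄ * h5⟩

theorem alp_add {F : Type*} [Field F] [DecidableEq F] {W W' : WeierstrassCurve F} (h : Rel2 W W')
    (P Q : W.toAffine.Point) : Sq (alp W (P + Q) * alp W P * alp W Q) := by
  by_cases hP0 : P = 0
  · subst hP0
    rw [zero_add, R2_alpz]
    exact ⟨alp W Q, alp_ne h Q, by ring⟩
  by_cases hQ0 : Q = 0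
  · subst hQ0
    rw [add_zero, R2_alpz]
    exact ⟨alp W P, alp_ne h P, by ring⟩
  rcases P with _ | ⟨x₁, y₁, h₁⟩
  · exact absurd rfl hP0
  rcases Q with _ | ⟨x₂, y₂, h₂⟩
  · exact absurd rfl hQ0
  have e₁ := R2_eqn h h₁
  have e₂ := R2_eqn h h₂
  by_cases h12 : x₁ = x₂
  · subst h12
    have h5 : (y₁ - y₂) * (y₁ + y₂) = 0 := by linear_combination e₁ - e₂
    by_cases h6 : y₁ + y₂ = 0
    · -- the sum is zero
      obtain ⟨hn, hneg⟩ := neg_pt W h.a₁ h.a₃ h₂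
      have h7 : y₁ = -y₂ := eq_neg_of_add_eq_zero_left h6
      have h8 : Affine.Point.some x₁ y₁ h₁ = -(Affine.Point.some x₁ y₂ h₂) := by
        rw [hneg]
        simp only [h7]
      rw [h8, neg_add_cancel, alp_neg h, R2_alpz]
      exact ⟨alp W (Affine.Point.some x₁ y₂ h₂), alp_ne h _, by ring⟩
    · have h7 : y₁ = y₂ := sub_eq_zero.1 ((mul_eq_zero.1 h5).resolve_right h6)
      subst h7
      have hy : y₁ ≠ 0 := by
        intro h8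
        apply h6
        rw [h8, add_zero]
      have h2y : 2 * y₁ ≠ 0 := mul_ne_zero h.two hy
      have hx : x₁ ≠ 0 := by
        intro h8
        apply hy
        have h9 : y₁ ^ 2 = 0 := by rw [e₁, h8]; ring
        exact pow_eq_zero_iff (two_ne_zero) |>.1 h9
      obtain ⟨l, hl⟩ : ∃ l, l = (3 * x₁ ^ 2 + 2 * W.a₂ * x₁ + W.a₄) / (2 * y₁) := ⟨_, rfl⟩
      have hl' : l * (2 * y₁) = 3 * x₁ ^ 2 + 2 * W.a₂ * x₁ + W.a₄ := by rw [hl, div_mul_cancel₀ _ h2y]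
      obtain ⟨x₃, hx₃⟩ : ∃ x₃, x₃ = l ^ 2 - W.a₂ - 2 * x₁ := ⟨_, rfl⟩
      obtain ⟨h₃, hadd⟩ := double_pt W h.a₁ h.a₃ h.two h₁ hy l x₃ _ hl' hx₃ rfl
      have hd := dbl h.two hy e₁
      rw [← hl] at hd
      have hx₃' : x₃ = ((x₁ ^ 2 - W.a₄) / (2 * y₁)) ^ 2 := by
        rw [← hd, hx₃]
        ring
      rw [hadd, R2_alp1 h₁ hx]
      by_cases h3 : x₃ = 0
      · rw [R2_alp0 h₃ h3]
        have h8 : x₁ ^ 2 = W.a₄ := by
          rw [hx₃'] at h3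
          have h9 := pow_eq_zero_iff (two_ne_zero) |>.1 h3
          rw [div_eq_zero_iff] at h9
          exact sub_eq_zero.1 (h9.resolve_right h2y)
        exact ⟨x₁ ^ 2, pow_ne_zero 2 hx, by rw [← h8]; ring⟩
      · rw [R2_alp1 h₃ h3]
        refine ⟨(x₁ ^ 2 - W.a₄) / (2 * y₁) * x₁, mul_ne_zero ?_ hx, by rw [hx₃']; ring⟩
        intro h8
        apply h3
        rw [hx₃', h8]
        ring
  · by_cases hx₁ : x₁ = 0
    · subst hx₁
      exact R2_zero h h₁ h₂ (fun h8 => h12 h8.symm)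
    by_cases hx₂ : x₂ = 0
    · subst hx₂
      have h8 := R2_zero h h₂ h₁ hx₁
      rw [add_comm, mul_right_comm]
      exact h8
    have h0 : x₁ - x₂ ≠ 0 := sub_ne_zero.2 h12
    obtain ⟨l, hl⟩ : ∃ l, l = (y₁ - y₂) / (x₁ - x₂) := ⟨_, rfl⟩
    have hl' : l * (x₁ - x₂) = y₁ - y₂ := by rw [hl, div_mul_cancel₀ _ h0]
    obtain ⟨x₃, hx₃⟩ : ∃ x₃, x₃ = l ^ 2 - W.a₂ - x₁ - x₂ := ⟨_, rfl⟩
    obtain ⟨h₃, hadd⟩ := add_pt W h.a₁ h.a₃ h₁ h₂ h12 l x₃ _ hl' hx₃ rfl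
    rw [hadd, R2_alp1 h₁ hx₁, R2_alp1 h₂ hx₂]
    by_cases h3 : x₃ = 0
    · rw [R2_alp0 h₃ h3]
      have h8 : x₁ * x₂ = W.a₄ := gen0 h12 hx₁ hx₂ e₁ e₂ (by rw [← hl, ← hx₃, h3])
      exact ⟨W.a₄, h.b0, by linear_combination W.a₄ * h8⟩
    · rw [R2_alp1 h₃ h3]
      have h8 := gen h12 e₁ e₂
      rw [← hl, ← hx₃] at h8
      refine ⟨(x₁ * y₂ - x₂ * y₁) / (x₁ - x₂), ?_, by rw [← h8]; ring⟩
      intro h9
      rw [h9] at h8
      have h10 : x₁ * x₂ * x₃ ≠ 0 := mul_ne_zero (mul_ne_zero hx₁ hx₂) h3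
      apply h10
      rw [h8]
      ring

end HYR
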