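import Pool.Agent.Lib.MP_10e784_agHR.Defs

/-!
# Block R2, leaf R2a: two identities for the addition law

`gen`: clear the denominators (`field_simp`), then it is a combination of the two equations: the numerator of
`x₁ x₂ ((y₁ - y₂)² - (a + x₁ + x₂) (x₁ - x₂)²) - (x₁ y₂ - x₂ y₁)²` is
`x₁ x₂ (y₁ - y₂)² - (x₁ y₂ - x₂ y₁)² - x₁ x₂ (a + x₁ + x₂) (x₁ - x₂)² = (x₁ x₂ - x₂²) y₁² + (x₁ x₂ - x₁²) y₂² - ..`, linear in `y₁²`, `y₂²`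
(the mixed terms `-2 x₁ x₂ y₁ y₂ + 2 x₁ x₂ y₁ y₂` cancel): `linear_combination (x₁ x₂ - x₂²) h₁ + (x₁ x₂ - x₁²) h₂`.
`dbl`: `(3 x² + 2 a x + b)² - (a + 2 x) 4 y² = (x² - b)²` with `y² = x³ + a x² + b x`.
-/

set_option autoImplicit false

namespace HYR

theorem gen {F : Type*} [Field F] {a b x₁ x₂ y₁ y₂ : F} (hne : x₁ ≠ x₂) (h₁ : y₁ ^ 2 = x₁ ^ 3 + a * x₁ ^ 2 + b * x₁)
    (h₂ : y₂ ^ 2 = x₂ ^ 3 + a * x₂ ^ 2 + b * x₂) :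
    x₁ * x₂ * (((y₁ - y₂) / (x₁ - x₂)) ^ 2 - a - x₁ - x₂) = ((x₁ * y₂ - x₂ * y₁) / (x₁ - x₂)) ^ 2 := by
  have hd : x₁ - x₂ ≠ 0 := sub_ne_zero.2 hne
  rw [div_pow, div_pow, eq_div_iff (pow_ne_zero 2 hd)]
  have e : x₁ * x₂ * ((y₁ - y₂) ^ 2 / (x₁ - x₂) ^ 2 - a - x₁ - x₂) * (x₁ - x₂) ^ 2 =
      x₁ * x₂ * ((y₁ - y₂) ^ 2 - (a + x₁ + x₂) * (x₁ - x₂) ^ 2) := by
    field_simp
    ring
  rw [e]
  linear_combination (x₁ * x₂ - x₂ ^ 2) * h₁ + (x₁ * x₂ - x₁ ^ 2) * h₂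

/-- if the third point is `(0, 0)`, the product of the other two `x`-coordinates is `b` -/
theorem gen0 {F : Type*} [Field F] {a b x₁ x₂ y₁ y₂ : F} (hne : x₁ ≠ x₂) (hx₁ : x₁ ≠ 0) (hx₂ : x₂ ≠ 0)
    (h₁ : y₁ ^ 2 = x₁ ^ 3 + a * x₁ ^ 2 + b * x₁)
    (h₂ : y₂ ^ 2 = x₂ ^ 3 + a * x₂ ^ 2 + b * x₂) (h0 : ((y₁ - y₂) / (x₁ - x₂)) ^ 2 - a - x₁ - x₂ = 0) :
    x₁ * x₂ = b := by
  have hd : x₁ - x₂ ≠ 0 := sub_ne_zero.2 hne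
  have hg := gen hne h₁ h₂
  rw [h0, mul_zero] at hg
  have h3 : x₁ * y₂ - x₂ * y₁ = 0 := by
    have h4 : (x₁ * y₂ - x₂ * y₁) / (x₁ - x₂) = 0 := pow_eq_zero_iff two_ne_zero |>.1 hg.symm
    rcases div_eq_zero_iff.1 h4 with h5 | h5
    · exact h5
    · exact absurd h5 hd
  have h6 : x₁ * x₂ * (x₁ - x₂) * (x₁ * x₂ - b) = 0 := by
    linear_combination (-x₂ ^ 2) * h₁ + x₁ ^ 2 * h₂ - (x₁ * y₂ + x₂ * y₁) * h3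
  rcases mul_eq_zero.1 h6 with h7 | h7
  · exact absurd h7 (mul_ne_zero (mul_ne_zero hx₁ hx₂) hd)
  · exact sub_eq_zero.1 h7

theorem dbl {F : Type*} [Field F] (h2 : (2 : F) ≠ 0) {a b x y : F} (hy : y ≠ 0)
    (h : y ^ 2 = x ^ 3 + a * x ^ 2 + b * x) :
    ((3 * x ^ 2 + 2 * a * x + b) / (2 * y)) ^ 2 - a - x - x = ((x ^ 2 - b) / (2 * y)) ^ 2 := by
  have h2y : 2 * y ≠ 0 := mul_ne_zero h2 hy
  rw [div_pow, div_pow, eq_div_iff (pow_ne_zero 2 h2y)]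
  have e : ((3 * x ^ 2 + 2 * a * x + b) ^ 2 / (2 * y) ^ 2 - a - x - x) * (2 * y) ^ 2 =
      (3 * x ^ 2 + 2 * a * x + b) ^ 2 - (a + 2 * x) * (2 * y) ^ 2 := by
    field_simp
    ring
  rw [e]
  linear_combination (-4 * (a + 2 * x)) * h

end HYR
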