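import Mathlib

/-!
# Block R2, leaf R3: the valuation of `x` is even at the primes not dividing `b` (Mathlib only)

`v = v_p` = `padicValRat p` (`Fact p.Prime`). Suppose `n = v(x)` is odd, so `n ≠ 0`. Write the right side as `x (x² + a x + b)`.
`n > 0`: `v(x² + a x + b) = 0`: `x² + a x` is zero or has valuation `≥ n > 0` (`padicValRat.min_le_padicValRat_add`, or divide: `v(x + a) ≥ 0`), `v(b) = 0`
(`padicValRat.of_int`, `p ∤ b`), so the sum is not zero and has valuation `0` (`padicValRat.add_eq_of_lt`). So `y ≠ 0`, `2 v(y) = n`: `n` is even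
(`padicValRat.pow`, `padicValRat.mul`).
`n < 0`: `x² + a x + b`: `v(x²) = 2 n`, `v(a x) ≥ n > 2 n` or `a x = 0`, `v(b) = 0 > 2 n`: so `v(x² + a x + b) = 2 n`, not zero, `2 v(y) = 3 n`:
`n` is even. (Perhaps easier with `padicValRat` replaced by the norm `padicNorm` or by `x = m / e`, use what you like.)
-/

set_option autoImplicit false

namespace HYR

private theorem R3_add {p : ℕ} [Fact p.Prime] {q r : ℚ} (hq : q ≠ 0)
    (h : r = 0 ∨ padicValRat p q < padicValRat p r) :
    q + r ≠ 0 ∧ padicValRat p (q + r) = padicValRat p q := by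
  rcases h with h | h
  · subst h
    rw [add_zero]
    exact ⟨hq, rfl⟩
  · by_cases hr : r = 0
    · subst hr
      rw [add_zero]
      exact ⟨hq, rfl⟩
    · have h1 : q + r ≠ 0 := by
        intro h0
        have h2 : r = -q := by linarith
        rw [h2, padicValRat.neg] at h
        exact lt_irrefl _ h
      exact ⟨h1, padicValRat.add_eq_of_lt h1 hq hr h⟩

private theorem R3_int {p : ℕ} (a : ℤ) : 0 ≤ padicValRat p (a : ℚ) := by
  rw [padicValRat.of_int]
  exact Int.natCast_nonneg _

theorem val_even {a b : ℤ} {p : ℕ} (hp : p.Prime) (hb : ¬ (p : ℤ) ∣ b) {x y : ℚ} (hx : x ≠ 0)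
    (h : y ^ 2 = x ^ 3 + a * x ^ 2 + b * x) : Even (padicValRat p x) := by
  have : Fact p.Prime := ⟨hp⟩
  have hb0 : b ≠ 0 := by
    rintro rfl
    exact hb (dvd_zero _)
  have hbq : (b : ℚ) ≠ 0 := Int.cast_ne_zero.mpr hb0
  have hvb : padicValRat p (b : ℚ) = 0 := by
    rw [padicValRat.of_int, padicValInt.eq_zero_of_not_dvd hb]
    rfl
  rcases lt_trichotomy (padicValRat p x) 0 with hn | hn | hn
  · have h1 := R3_add (p := p) (q := x) (r := (a : ℚ)) hx (Or.inr (lt_of_lt_of_le hn (R3_int a)))
    have h2 : x * (x + a) ≠ 0 := mul_ne_zero hx h1.1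
    have h3 : padicValRat p (x * (x + a)) = padicValRat p x + padicValRat p x := by
      rw [padicValRat.mul hx h1.1, h1.2]
    have h4 := R3_add (p := p) (q := x * (x + a)) (r := (b : ℚ)) h2
      (Or.inr (by rw [h3, hvb]; linarith))
    have h5 : y ^ 2 = x * (x * (x + a) + b) := by rw [h]; ring
    have hy : y ≠ 0 := by
      rintro rfl
      have : x * (x * (x + a) + b) ≠ 0 := mul_ne_zero hx h4.1
      apply this
      rw [← h5]
      ring
    have h6 : padicValRat p (y ^ 2) = padicValRat p x + (padicValRat p x + padicValRat p x) := by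
      rw [h5, padicValRat.mul hx h4.1, h4.2, h3]
    rw [padicValRat.pow] at h6
    refine ⟨padicValRat p y - padicValRat p x, ?_⟩
    push_cast at h6
    linarith
  · rw [hn]
    exact Even.zero
  · have h1 : x * (x + a) = 0 ∨ padicValRat p (b : ℚ) < padicValRat p (x * (x + a)) := by
      by_cases h0 : x + a = 0
      · left
        rw [h0, mul_zero]
      · right
        rw [hvb, padicValRat.mul hx h0]
        have h2 : 0 ≤ padicValRat p (x + a) :=
          le_trans (le_min hn.le (R3_int a)) (padicValRat.min_le_padicValRat_add h0)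
        linarith
    have h4 := R3_add (p := p) (q := (b : ℚ)) (r := x * (x + a)) hbq h1
    have h5 : y ^ 2 = x * (b + x * (x + a)) := by rw [h]; ring
    have hy : y ≠ 0 := by
      rintro rfl
      have : x * (b + x * (x + a)) ≠ 0 := mul_ne_zero hx h4.1
      apply this
      rw [← h5]
      ring
    have h6 : padicValRat p (y ^ 2) = padicValRat p x := by
      rw [h5, padicValRat.mul hx h4.1, h4.2, hvb, add_zero]
    rw [padicValRat.pow] at h6
    refine ⟨padicValRat p y, ?_⟩
    push_cast at h6
    linarith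

end HYR
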