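import Mathlib

/-!
# Block R2, leaf R4: a rational number modulo squares (Mathlib only)

`x = ± n / d`, `n = x.num.natAbs`, `d = x.den`, `n, d ≥ 1`. `n d = s t²` with `s` squarefree (`Nat.sq_mul_squarefree`), so
`x = ± n d / d² = ± s (t / d)²`, `u = t / d ≠ 0`. For a prime `p ∣ s`: `v_p(s) = 1` (squarefree), so `v_p(x) = v_p(± s) + 2 v_p(u) = 1 + 2 v_p(u)` is odd
(`padicValRat.mul`, `padicValRat.pow`, `padicValRat.neg`, `padicValRat.of_nat`).
-/

set_option autoImplicit false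

namespace HYR

theorem sqf (x : ℚ) (hx : x ≠ 0) : ∃ (e : Bool) (s : ℕ) (u : ℚ), Squarefree s ∧ u ≠ 0 ∧
    x = (if e then 1 else -1) * s * u ^ 2 ∧ ∀ p : ℕ, p.Prime → p ∣ s → ¬ Even (padicValRat p x) := by
  obtain ⟨s, t, hst, hs⟩ := Nat.sq_mul_squarefree (x.num.natAbs * x.den)
  have hn : x.num.natAbs ≠ 0 := fun h => hx (Rat.num_eq_zero.1 (Int.natAbs_eq_zero.1 h))
  have hd : x.den ≠ 0 := x.den_nz
  have hs0 : s ≠ 0 := hs.ne_zero
  have ht : t ≠ 0 := by
    rintro rfl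
    rw [zero_pow two_ne_zero, zero_mul] at hst
    exact mul_ne_zero hn hd hst.symm
  have hdQ : (x.den : ℚ) ≠ 0 := Nat.cast_ne_zero.2 hd
  have htQ : (t : ℚ) ≠ 0 := Nat.cast_ne_zero.2 ht
  have hu : (t : ℚ) / x.den ≠ 0 := div_ne_zero htQ hdQ
  have hstQ : (t : ℚ) ^ 2 * s = x.num.natAbs * x.den := by exact_mod_cast hst
  have hx1 : x = (if decide (0 ≤ x.num) then 1 else -1) * s * ((t : ℚ) / x.den) ^ 2 := by
    have h1 : (s : ℚ) * ((t : ℚ) / x.den) ^ 2 = x.num.natAbs / x.den := by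
      rw [div_pow, ← mul_div_assoc, mul_comm (s : ℚ), hstQ, div_eq_div_iff (pow_ne_zero 2 hdQ) hdQ]
      ring
    rw [mul_assoc, h1]
    by_cases h : 0 ≤ x.num
    · have h2 : ((x.num.natAbs : ℕ) : ℚ) = (x.num : ℚ) := by
        rw [Nat.cast_natAbs, abs_of_nonneg h]
      rw [if_pos (by simpa using h), one_mul, h2, Rat.num_div_den]
    · have h2 : ((x.num.natAbs : ℕ) : ℚ) = -(x.num : ℚ) := by
        rw [Nat.cast_natAbs, abs_of_nonpos (not_le.1 h).le, Int.cast_neg]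
      rw [if_neg (by simpa using h), h2, neg_div, neg_one_mul, neg_neg, Rat.num_div_den]
  refine ⟨decide (0 ≤ x.num), s, (t : ℚ) / x.den, hs, hu, hx1, fun p hp hps => ?_⟩
  have hpf : Fact p.Prime := ⟨hp⟩
  have hc : (if decide (0 ≤ x.num) then (1 : ℚ) else -1) ≠ 0 := by
    split_ifs <;> norm_num
  have hc' : padicValRat p (if decide (0 ≤ x.num) then (1 : ℚ) else -1) = 0 := by
    split_ifs
    · exact padicValRat.one
    · rw [padicValRat.neg, padicValRat.one]
  have hsQ : (s : ℚ) ≠ 0 := Nat.cast_ne_zero.2 hs0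
  have h1 : padicValNat p s = 1 := by
    refine le_antisymm ?_ (one_le_padicValNat_of_dvd hs0 hps)
    rw [← Nat.factorization_def s hp]
    exact hs.natFactorization_le_one p
  have h2 : padicValRat p x = 1 + 2 * padicValRat p ((t : ℚ) / x.den) := by
    conv_lhs => rw [hx1]
    rw [padicValRat.mul (mul_ne_zero hc hsQ) (pow_ne_zero 2 hu), padicValRat.mul hc hsQ, hc',
      padicValRat.of_nat, h1, padicValRat.pow]
    push_cast
    ring
  rw [h2, Int.not_even_iff_odd]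
  exact ⟨padicValRat p ((t : ℚ) / x.den), by ring⟩

end HYR
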