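import Pool.Agent.Lib.MP_10e784_agHR.R2
import Pool.Agent.Lib.MP_10e784_agHR.R3
import Pool.Agent.Lib.MP_10e784_agHR.R4

/-!
# Block R2, leaf R5: the label of a point

`sqf` for `z = alp _ P ≠ 0`: `z = ± s u²`, so `± s z = s² u²` is a nonzero square (`s ≠ 0`). A prime `p ∣ s` divides `b`: otherwise `v_p(z)` is even:
`P = O`: `z = 1`, `v = 0`; `P = (x, y)`, `x ≠ 0`: `z = x`, `val_even` (the equation of a point of `E2`: `nons`/`eqn` of `MP_1a91b9_nuI.Phi` and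
`(E2 a b).a₁ = 0` etc. by `rfl`; or `Affine.equation_iff`); `x = 0`: `z = b`, `v_p(b) = 0` (`padicValRat.of_int`,
`padicValInt.eq_zero_of_not_dvd`).
-/

set_option autoImplicit false

namespace HYR

open WeierstrassCurve Pool.Agent.Lib.MP_1a91b9_nuI

private theorem R5_even {a b : ℤ} {p : ℕ} (hp : p.Prime) (hpb : ¬ (p : ℤ) ∣ b)
    (P : (E2 (a : ℚ) (b : ℚ)).toAffine.Point) : Even (padicValRat p (alp _ P)) := by
  rcases P with _ | ⟨x, y, h⟩
  · show Even (padicValRat p 1)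
    rw [padicValRat.one]
    exact Even.zero
  · by_cases h0 : x = 0
    · have h1 : alp (E2 (a : ℚ) (b : ℚ)) (.some x y h) = (b : ℚ) := if_pos h0
      rw [h1, padicValRat.of_int, padicValInt.eq_zero_of_not_dvd hpb]
      exact Even.zero
    · have h1 : alp (E2 (a : ℚ) (b : ℚ)) (.some x y h) = x := if_neg h0
      rw [h1]
      have h2 := (eqn (E2 (a : ℚ) (b : ℚ)) rfl rfl x y).1 h.1
      refine val_even hp hpb (a := a) (y := y) h0 ?_
      rw [h2]
      show x ^ 3 + (a : ℚ) * x ^ 2 + (b : ℚ) * x + 0 = _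
      rw [add_zero]

theorem lab {a b : ℤ} (hb : b ≠ 0) (hd : a ^ 2 - 4 * b ≠ 0) (P : (E2 (a : ℚ) (b : ℚ)).toAffine.Point) :
    ∃ (e : Bool) (s : ℕ), Squarefree s ∧ s.primeFactors ⊆ b.natAbs.primeFactors ∧
      Sq (((if e then 1 else -1) : ℚ) * s * alp _ P) := by
  have hb' : (b : ℚ) ≠ 0 := by exact_mod_cast hb
  have hd' : (a : ℚ) ^ 2 - 4 * (b : ℚ) ≠ 0 := by exact_mod_cast hd
  have hz := alp_ne (rel2 (two_ne_zero : (2 : ℚ) ≠ 0) hb' hd') P
  obtain ⟨e, s, u, hs, hu, h1, h2⟩ := sqf _ hz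
  have hs0 : (s : ℚ) ≠ 0 := by exact_mod_cast hs.ne_zero
  refine ⟨e, s, hs, fun p hp => ?_, (s : ℚ) * u, mul_ne_zero hs0 hu, ?_⟩
  · obtain ⟨hp1, hp2, _⟩ := Nat.mem_primeFactors.1 hp
    rw [Nat.mem_primeFactors]
    refine ⟨hp1, ?_, Int.natAbs_ne_zero.2 hb⟩
    by_contra hc
    exact h2 p hp1 hp2 (R5_even hp1 (fun h3 => hc (Int.natCast_dvd.1 h3)) P)
  · rw [h1]
    cases e
    · simp only [Bool.false_eq_true, if_false]
      ring
    · simp only [if_true]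
      ring

end HYR
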