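import Mathlib

/-!
# Block R2, leaf R6a: representatives of labels (Mathlib only)

The labels are in `univ ×ˢ T.powerset`, of cardinality `2 * 2 ^ T.card = 2 ^ (T.card + 1)`; take an equivalence `e` of `Fin (2 ^ (T.card + 1))` with the
subtype (`Finset.equivFinOfCardEq` or `Finset.equivFin`), and `r i` = an element with the label `e i` if there is one, an arbitrary element otherwise.
-/

set_option autoImplicit false

namespace HYR

theorem pig {G : Type*} [Nonempty G] (T : Finset ℕ) (L : G → Bool × Finset ℕ) (hL : ∀ P, (L P).2 ⊆ T) :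
    ∃ r : Fin (2 ^ (T.card + 1)) → G, ∀ P, ∃ i, L (r i) = L P := by
  classical
  have hcard : ((Finset.univ : Finset Bool) ×ˢ T.powerset).card = 2 ^ (T.card + 1) := by
    rw [Finset.card_product, Finset.card_powerset, Finset.card_univ, Fintype.card_bool, pow_succ, mul_comm]
  have e : ((Finset.univ : Finset Bool) ×ˢ T.powerset : Finset (Bool × Finset ℕ)) ≃ Fin (2 ^ (T.card + 1)) :=
    Finset.equivFinOfCardEq hcard
  refine ⟨fun i => if h : ∃ P, L P = ((e.symm i : Bool × Finset ℕ)) then h.choose
    else Classical.arbitrary G, fun P => ?_⟩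
  have hm : L P ∈ (Finset.univ : Finset Bool) ×ˢ T.powerset :=
    Finset.mem_product.2 ⟨Finset.mem_univ _, Finset.mem_powerset.2 (hL P)⟩
  refine ⟨e ⟨L P, hm⟩, ?_⟩
  have h : ∃ P', L P' = ((e.symm (e ⟨L P, hm⟩) : Bool × Finset ℕ)) := by
    refine ⟨P, ?_⟩
    rw [e.symm_apply_apply]
  show L (if h : ∃ P', L P' = ((e.symm (e ⟨L P, hm⟩) : Bool × Finset ℕ)) then h.choose
    else Classical.arbitrary G) = L P
  rw [dif_pos h, h.choose_spec, e.symm_apply_apply]

end HYR
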