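import Pool.Agent.Lib.MP_10e784_agHR.R5
import Pool.Agent.Lib.MP_10e784_agHR.R6a

/-!
# Block R2, leaf R6: at most `2 ^ (ω(b) + 1)` classes modulo the image of an isogeny

Choose `e P`, `s P` by `lab`, `L P = (e P, (s P).primeFactors)`, `r` by `pig` with `T = b.natAbs.primeFactors`. For `P` let `L (r i) = L P`: then `e`, `s` agree
(squarefree numbers with the same prime factors: `Nat.prod_primeFactors_of_squarefree`), so `alp P * alp (r i)` is a square times `(± s)^(-2)`: `Sq`. By `alp_add` for `P`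
and `-(r i)` and `alp_neg`: `alp (P - r i)` is `Sq` (`Rel2 (E2 a b) _` is `rel2`; the product of nonzero squares and the quotient are nonzero squares), so
`f Q = P - r i` by `hf`.
-/

set_option autoImplicit false

namespace HYR

open WeierstrassCurve Pool.Agent.Lib.MP_1a91b9_nuI

private theorem R6_alg {c x y z : ℚ} (h1 : Sq (c * x)) (h2 : Sq (c * y)) (h3 : Sq (z * x * y)) : Sq z := by
  obtain ⟨u, hu, hu2⟩ := h1
  obtain ⟨v, hv, hv2⟩ := h2
  obtain ⟨w, hw, hw2⟩ := h3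
  have hc : c ≠ 0 := by
    rintro rfl
    rw [zero_mul] at hu2
    exact hu (pow_eq_zero_iff (two_ne_zero) |>.mp hu2.symm)
  refine ⟨c * w / (u * v), div_ne_zero (mul_ne_zero hc hw) (mul_ne_zero hu hv), ?_⟩
  rw [div_pow, mul_pow, mul_pow, eq_div_iff (mul_ne_zero (pow_ne_zero 2 hu) (pow_ne_zero 2 hv)),
    ← hu2, ← hv2, ← hw2]
  ring

theorem cls {a b : ℤ} (hb : b ≠ 0) (hd : a ^ 2 - 4 * b ≠ 0) {V : Type*} (f : V → (E2 (a : ℚ) (b : ℚ)).toAffine.Point)
    (hf : ∀ P, Sq (alp _ P) → ∃ Q, f Q = P) :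
    ∃ r : Fin (2 ^ (b.natAbs.primeFactors.card + 1)) → (E2 (a : ℚ) (b : ℚ)).toAffine.Point,
      ∀ P, ∃ i Q, P = r i + f Q := by
  choose e s hs hsub hsq using fun P => lab hb hd P
  have : Nonempty (E2 (a : ℚ) (b : ℚ)).toAffine.Point := ⟨0⟩
  obtain ⟨r, hr⟩ := pig b.natAbs.primeFactors
    (fun P : (E2 (a : ℚ) (b : ℚ)).toAffine.Point => (e P, (s P).primeFactors)) (fun P => hsub P)
  refine ⟨r, fun P => ?_⟩
  obtain ⟨i, hi⟩ := hr P
  have he : e (r i) = e P := congrArg Prod.fst hi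
  have hpf : (s (r i)).primeFactors = (s P).primeFactors := congrArg Prod.snd hi
  have hss : s (r i) = s P := by
    rw [← Nat.prod_primeFactors_of_squarefree (hs (r i)), hpf,
      Nat.prod_primeFactors_of_squarefree (hs P)]
  have h1 := hsq P
  have h2 := hsq (r i)
  rw [he, hss] at h2
  have hbq : (b : ℚ) ≠ 0 := by exact_mod_cast hb
  have hdq : (a : ℚ) ^ 2 - 4 * (b : ℚ) ≠ 0 := by exact_mod_cast hd
  have h3 := alp_add (rel2 (two_ne_zero : (2 : ℚ) ≠ 0) hbq hdq) P (-(r i))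
  rw [alp_neg (rel2 (two_ne_zero : (2 : ℚ) ≠ 0) hbq hdq) (r i)] at h3
  obtain ⟨Q, hQ⟩ := hf _ (R6_alg h1 h2 h3)
  exact ⟨i, Q, by rw [hQ]; abel⟩

end HYR
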