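import Pool.Agent.Lib.MP_10e784_agHR.Defs

/-!
# Block R2, leaf R7: the composition with the dual isogeny is multiplication by 2

`tp` sends `(X, Y)` to `(vcX C X, vcY C X Y) = (X / 4, Y / 8)` for `C = ⟨(Units.mk0 2 h2)⁻¹, 0, 0, 0⟩` (unfold `vcX`, `vcY`: `MP_1a91b9_nt.VcPoint` / `VarChange`), so
`psi_some`: for `X ≠ 0`: `psi (X, Y) = ((X + a' + b' / X) / 4, Y (1 - b' / X²) / 8)`, `a' = -2 a`, `b' = a² - 4 b`, and `psi O = psi (0, 0) = O`.
`psi_phi`: `P = O`: both sides `O`. `P = (x, y)`, `x = 0` (`y = 0`): `phi2 P = O`, `P + P = O` (`xz2_two`). `x ≠ 0`, `y = 0`: `x² + a x + b = 0`,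
`phi2 P = (0, 0)` (`x + a + b / x = 0`), `psi (0, 0) = O`, and `P + P = O` (`Affine.Point.add_of_Y_eq`, `negY = -y = 0`). `x ≠ 0`, `y ≠ 0`: `phi2 P = (X, Y)`, `X = x + a + b / x = y² / x² ≠ 0`,
`Y = y (1 - b / x²)`; `P + P` by `Affine.Point.add_self_of_Y_ne` (or `add_of_Y_ne`), slope `L = (3 x² + 2 a x + b) / (2 y)`, `x₃ = L² - a - 2 x`,
`y₃ = -(L (x₃ - x) + y)`; compare the coordinates: `(X + a' + b' / X) / 4 = Y² / (4 X²) = (x² - b)² / (4 y²) = x₃`, and `Y (X² - b') / (8 X²) = y₃`: clear the denominators and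
use `y² = x³ + a x² + b x` (replace `y²` everywhere; `field_simp`, then `linear_combination (coefficient) * h`, or first write `b = (y² - x³ - a x²) / x`).
-/

set_option autoImplicit false

namespace HYR

open WeierstrassCurve Pool.Agent.Lib.MP_1a91b9_nuI

private theorem R7_pos {F : Type*} [Field F] {W W' : WeierstrassCurve F} (h : Rel2 W W') {x y : F}
    (hP : W.toAffine.Nonsingular x y) (hx : x = 0) : phi2 h (Affine.Point.some x y hP) = 0 := by
  unfold phi2
  simp only [hx, dif_pos]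
  rfl

private theorem R7_neg {F : Type*} [Field F] {W W' : WeierstrassCurve F} (h : Rel2 W W') {x y : F}
    (hP : W.toAffine.Nonsingular x y) (hx : x ≠ 0) :
    ∃ h', phi2 h (Affine.Point.some x y hP) =
      Affine.Point.some (x + W.a₂ + W.a₄ / x) (y * (1 - W.a₄ / x ^ 2)) h' := by
  refine ⟨?_, ?_⟩
  · rw [nons W' h.Δ' h.a₁' h.a₃', h.a₂', h.a₄', h.a₆', add_zero]
    apply phi2_eqn _ _ _ _ hx
    rw [nons W h.Δ h.a₁ h.a₃, h.a₆, add_zero] at hP
    exact hP
  · unfold phi2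
    simp only [hx, dite_false]

private theorem R7_tp0 {F : Type*} [Field F] (W V : WeierstrassCurve F) (C : VariableChange F)
    (h : C • W = V) : tp W V C h 0 = 0 := by
  subst h
  rfl

private theorem R7_tp {F : Type*} [Field F] (h2 : (2 : F) ≠ 0) (W V : WeierstrassCurve F)
    (h : (⟨(Units.mk0 2 h2)⁻¹, 0, 0, 0⟩ : VariableChange F) • W = V) {x y : F}
    (hP : V.toAffine.Nonsingular x y) :
    ∃ h', tp W V _ h (Affine.Point.some x y hP) = Affine.Point.some (x / 4) (y / 8) h' := by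
  subst h
  have e1 : Pool.Agent.Lib.MP_1a91b9_nt.vcX (⟨(Units.mk0 2 h2)⁻¹, 0, 0, 0⟩ : VariableChange F) x = x / 4 := by
    unfold Pool.Agent.Lib.MP_1a91b9_nt.vcX
    simp only [Units.val_inv_eq_inv_val, Units.val_mk0, add_zero]
    have h4 : (4 : F) = 2 ^ 2 := by norm_num
    rw [h4]
    field_simp
  have e2 : Pool.Agent.Lib.MP_1a91b9_nt.vcY (⟨(Units.mk0 2 h2)⁻¹, 0, 0, 0⟩ : VariableChange F) x y = y / 8 := by
    unfold Pool.Agent.Lib.MP_1a91b9_nt.vcY
    simp only [Units.val_inv_eq_inv_val, Units.val_mk0, add_zero]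
    have h4 : (8 : F) = 2 ^ 3 := by norm_num
    rw [h4]
    field_simp
    ring
  have e3 : tp W _ _ rfl (Affine.Point.some x y hP) = Affine.Point.some
      (Pool.Agent.Lib.MP_1a91b9_nt.vcX (⟨(Units.mk0 2 h2)⁻¹, 0, 0, 0⟩ : VariableChange F) x)
      (Pool.Agent.Lib.MP_1a91b9_nt.vcY (⟨(Units.mk0 2 h2)⁻¹, 0, 0, 0⟩ : VariableChange F) x y)
      ((Pool.Agent.Lib.MP_1a91b9_nt.nonsingular_variableChange W _ x y).1 hP) := rfl
  refine ⟨?_, ?_⟩
  · rw [← e1, ← e2]
    exact (Pool.Agent.Lib.MP_1a91b9_nt.nonsingular_variableChange W _ x y).1 hP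
  · rw [e3]
    simp only [e1, e2]

theorem psi_phi {F : Type*} [Field F] [DecidableEq F] (h2 : (2 : F) ≠ 0) {a b : F} (hb : b ≠ 0)
    (hb' : a ^ 2 - 4 * b ≠ 0) (P : (E2 a b).toAffine.Point) :
    psi h2 hb hb' (phi2 (rel2 h2 hb hb') P) = P + P := by
  have h4 : (4 : F) ≠ 0 := by
    have h5 : (4 : F) = 2 ^ 2 := by norm_num
    rw [h5]
    exact pow_ne_zero 2 h2
  have h8 : (8 : F) ≠ 0 := by
    have h5 : (8 : F) = 2 ^ 3 := by norm_num
    rw [h5]
    exact pow_ne_zero 3 h2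
  have hz : psi h2 hb hb' 0 = 0 := rfl
  rcases P with _ | ⟨x, y, hP⟩
  · exact (add_zero (0 : (E2 a b).toAffine.Point)).symm
  · have hE : y ^ 2 = x ^ 3 + a * x ^ 2 + b * x := by
      have h := rel2 h2 hb hb'
      have h1 := hP
      rw [nons (E2 a b) h.Δ h.a₁ h.a₃, h.a₆, add_zero] at h1
      exact h1
    by_cases hx : x = 0
    · rw [R7_pos _ hP hx, hz, xz2_two (rel2 h2 hb hb') (Affine.Point.some x y hP) (show x = 0 from hx)]
    · obtain ⟨h1, e1⟩ := R7_neg (rel2 h2 hb hb') hP hx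
      rw [e1]
      have hX : x + (E2 a b).a₂ + (E2 a b).a₄ / x = y ^ 2 / x ^ 2 := by
        show x + a + b / x = y ^ 2 / x ^ 2
        field_simp
        linear_combination -hE
      by_cases hy : y = 0
      · subst hy
        have hX0 : x + (E2 a b).a₂ + (E2 a b).a₄ / x = 0 := by rw [hX]; ring
        rw [double_zero (E2 a b) rfl rfl hP]
        unfold psi
        rw [R7_pos _ h1 hX0]
        exact R7_tp0 _ _ _ _
      · have hX0 : x + (E2 a b).a₂ + (E2 a b).a₄ / x ≠ 0 := by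
          rw [hX]
          exact div_ne_zero (pow_ne_zero 2 hy) (pow_ne_zero 2 hx)
        obtain ⟨h3, e3⟩ := R7_neg (rel2' h2 hb hb') h1 hX0
        unfold psi
        rw [e3]
        obtain ⟨h5, e5⟩ := R7_tp h2 (E2 a b) _ (E2_dual h2 a b).symm h3
        rw [e5]
        obtain ⟨h6, e6⟩ := double_pt (E2 a b) rfl rfl h2 hP hy
          ((3 * x ^ 2 + 2 * a * x + b) / (2 * y)) ((x ^ 2 - b) ^ 2 / (4 * y ^ 2))
          (-((3 * x ^ 2 + 2 * a * x + b) / (2 * y) * ((x ^ 2 - b) ^ 2 / (4 * y ^ 2) - x) + y))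
          (by
            show _ = 3 * x ^ 2 + 2 * a * x + b
            field_simp)
          (by
            show _ = _ - a - 2 * x
            have h4' : (4 : F) = 2 ^ 2 := by norm_num
            rw [h4']
            field_simp
            linear_combination 4 * (a + 2 * x) * hE)
          rfl
        rw [e6, Affine.Point.some.injEq]
        constructor
        · rw [hX]
          show (y ^ 2 / x ^ 2 + -2 * a + (a ^ 2 - 4 * b) / (y ^ 2 / x ^ 2)) / 4 = _
          field_simp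
          linear_combination (y ^ 2 + x ^ 3 + a * x ^ 2 + b * x - 2 * a * x ^ 2) * hE
        · rw [hX]
          show y * (1 - b / x ^ 2) * (1 - (a ^ 2 - 4 * b) / (y ^ 2 / x ^ 2) ^ 2) / 8 = _
          have h8' : (8 : F) = 2 ^ 3 := by norm_num
          have h4' : (4 : F) = 2 ^ 2 := by norm_num
          rw [h8', h4']
          field_simp
          linear_combination ((9 * x ^ 2 - b) * (y ^ 2 + x ^ 3 + a * x ^ 2 + b * x) -
            4 * x ^ 3 * (3 * x ^ 2 + 2 * a * x + b)) * hE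

end HYR
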