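import Pool.Agent.Lib.MP_10e784_agHR.R1

/-!
# Block R2, leaf R8a: points whose `x`-coordinate is a square are in the image of the dual isogeny

`tp` is surjective (`tp_bij`): `P = tp P''` with `P''` a point of `W'' = E2 (4 a) (16 b)` (in the form of `E2_dual`). `P'' = O`: `alp W'' P'' = 1`. `P'' = (X, Y)`: `P = (X / 4, Y / 8)`, so
`alp W'' P'' = 4 alp P` if `X ≠ 0`, and if `X = 0`: `alp W'' P'' = (-2 a)² - 4 (a² - 4 b) = 16 b = 16 alp P`. So `alp W'' P''` is a nonzero square, `P'' = phi2 (rel2' ..) Q`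
by `phi2_sq`, `psi Q = tp (phi2 Q) = tp P'' = P`.
-/

set_option autoImplicit false

namespace HYR

open WeierstrassCurve Pool.Agent.Lib.MP_1a91b9_nuI

theorem psi_sq {F : Type*} [Field F] (h2 : (2 : F) ≠ 0) {a b : F} (hb : b ≠ 0) (hb' : a ^ 2 - 4 * b ≠ 0)
    (P : (E2 a b).toAffine.Point) (hP : Sq (alp _ P)) :
    ∃ Q : (E2 (-2 * a) (a ^ 2 - 4 * b)).toAffine.Point, psi h2 hb hb' Q = P := by
  obtain ⟨P2, hP2⟩ := (tp_bij (E2 a b) (E2 (-2 * (-2 * a)) ((-2 * a) ^ 2 - 4 * (a ^ 2 - 4 * b)))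
    ⟨(Units.mk0 2 h2)⁻¹, 0, 0, 0⟩ (E2_dual h2 a b).symm).2 P
  have key : Sq (alp _ P2) := by
    rcases P2 with _ | ⟨x, y, hxy⟩
    · exact ⟨1, one_ne_zero, by simp [alp]⟩
    · subst hP2
      obtain ⟨u, hu, he⟩ := hP
      simp only [tp, alp, Pool.Agent.Lib.MP_1a91b9_nt.vcX, E2, Units.val_inv_eq_inv_val,
        Units.val_mk0, add_zero] at he ⊢
      by_cases hx : x = 0
      · rw [if_pos (by rw [hx, mul_zero])] at he
        rw [if_pos hx]
        refine ⟨4 * u, ?_, ?_⟩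
        · have h4 : (4 : F) = 2 ^ 2 := by norm_num
          rw [h4]
          exact mul_ne_zero (pow_ne_zero 2 h2) hu
        · rw [he]
          ring
      · rw [if_neg (mul_ne_zero (pow_ne_zero 2 (inv_ne_zero h2)) hx)] at he
        rw [if_neg hx]
        refine ⟨2 * u, mul_ne_zero h2 hu, ?_⟩
        rw [mul_pow, ← he]
        field_simp
  obtain ⟨Q, hQ⟩ := phi2_sq (rel2' h2 hb hb') P2 key
  refine ⟨Q, ?_⟩
  unfold psi
  rw [hQ, hP2]

end HYR
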