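import Pool.Agent.Lib.MP_10e784_agHR.R6
import Pool.Agent.Lib.MP_10e784_agHR.R7
import Pool.Agent.Lib.MP_10e784_agHR.R8a

/-!
# Block R2, leaf R8: at most `2 ^ (ω(b) + ω(a² - 4 b) + 2)` classes modulo 2

`cls` for `(a, b)`, `f = psi` (`psi_sq`): `P = r i + psi Q`. `cls` for `(-2 a, a² - 4 b)`, `f = phi2 (rel2 ..)` (`phi2_sq`; `((-2 a : ℤ) : ℚ) = -2 (a : ℚ)` by `push_cast`: state it for
`a' b' : ℤ` with `(a' : ℚ) = -2 a`, `(b' : ℚ) = a² - 4 b` and `subst`/`rw`, `(-2 a)² - 4 (a² - 4 b) = 16 b ≠ 0`): `Q = s j + phi2 T`. So `P = r i + psi (s j) + psi (phi2 T) = (r i + psi (s j)) + 2 • T`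
(`psi_add`, `psi_phi`, `two_nsmul`). Index the `r i + psi (s j)` by `Fin (2 ^ (m + 1)) × Fin (2 ^ (m' + 1)) ≃ Fin (2 ^ (m + m' + 2))` (`finProdFinEquiv`, `finCongr`).
-/

set_option autoImplicit false

namespace HYR

open WeierstrassCurve Pool.Agent.Lib.MP_1a91b9_nuI

/-- the two steps of the descent, in abstract groups -/
private theorem R8_comb {A B : Type*} [AddCommGroup A] [AddCommGroup B] {m m' : ℕ} (f : A → B) (g : B → A)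
    (hg : ∀ x y, g (x + y) = g x + g y) (hgf : ∀ x, g (f x) = x + x)
    (r : Fin (2 ^ (m + 1)) → A) (hr : ∀ P, ∃ i Q, P = r i + g Q)
    (s : Fin (2 ^ (m' + 1)) → B) (hs : ∀ P, ∃ i Q, P = s i + f Q) :
    ∃ r : Fin (2 ^ (m + m' + 2)) → A, ∀ P : A, ∃ i, ∃ Q : A, P = r i + 2 • Q := by
  have hcard : 2 ^ (m + m' + 2) = 2 ^ (m + 1) * 2 ^ (m' + 1) := by
    rw [← pow_add]
    congr 1
    omega
  refine ⟨fun i => r (finProdFinEquiv.symm (finCongr hcard i)).1 +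
    g (s (finProdFinEquiv.symm (finCongr hcard i)).2), fun P => ?_⟩
  obtain ⟨i, Q, h1⟩ := hr P
  obtain ⟨j, T, h2⟩ := hs Q
  refine ⟨(finCongr hcard).symm (finProdFinEquiv (i, j)), T, ?_⟩
  simp only [Equiv.apply_symm_apply, Equiv.symm_apply_apply]
  rw [h1, h2, hg, hgf, two_nsmul, add_assoc]

private theorem R8_cls {a b a' b' : ℤ} (ha' : a' = -2 * a) (hb' : b' = a ^ 2 - 4 * b) (hb : b ≠ 0)
    (hd : a ^ 2 - 4 * b ≠ 0) (hbq : (b : ℚ) ≠ 0) (hdq : (a : ℚ) ^ 2 - 4 * (b : ℚ) ≠ 0) :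
    ∃ r : Fin (2 ^ ((a ^ 2 - 4 * b).natAbs.primeFactors.card + 1)) →
      (E2 (-2 * (a : ℚ)) ((a : ℚ) ^ 2 - 4 * (b : ℚ))).toAffine.Point,
      ∀ P, ∃ i Q, P = r i + phi2 (rel2 two_ne_zero hbq hdq) Q := by
  have h1 : b' ≠ 0 := by rw [hb']; exact hd
  have h2 : a' ^ 2 - 4 * b' ≠ 0 := by
    have h3 : a' ^ 2 - 4 * b' = 16 * b := by rw [ha', hb']; ring
    rw [h3]
    exact mul_ne_zero (by norm_num) hb
  have key : ∀ (x y : ℚ), (a' : ℚ) = x → (b' : ℚ) = y → ∀ {V : Type} (f : V → (E2 x y).toAffine.Point),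
      (∀ P, Sq (alp (E2 x y) P) → ∃ Q, f Q = P) →
      ∃ r : Fin (2 ^ (b'.natAbs.primeFactors.card + 1)) → (E2 x y).toAffine.Point,
        ∀ P, ∃ i Q, P = r i + f Q := by
    intro x y hx hy
    subst hx hy
    intro V f hf
    exact cls h1 h2 f hf
  have h4 := key (-2 * (a : ℚ)) ((a : ℚ) ^ 2 - 4 * (b : ℚ)) (by rw [ha']; push_cast; ring)
    (by rw [hb']; push_cast; ring) (phi2 (rel2 two_ne_zero hbq hdq)) (fun P hP => phi2_sq _ P hP)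
  rw [hb'] at h4
  exact h4

theorem few2 {a b : ℤ} (hb : b ≠ 0) (hd : a ^ 2 - 4 * b ≠ 0) :
    ∃ r : Fin (2 ^ (b.natAbs.primeFactors.card + (a ^ 2 - 4 * b).natAbs.primeFactors.card + 2)) →
      (E2 (a : ℚ) (b : ℚ)).toAffine.Point,
      ∀ P : (E2 (a : ℚ) (b : ℚ)).toAffine.Point, ∃ i, ∃ Q : (E2 (a : ℚ) (b : ℚ)).toAffine.Point,
        P = r i + 2 • Q := by
  have hbq : (b : ℚ) ≠ 0 := by exact_mod_cast hb
  have hdq : (a : ℚ) ^ 2 - 4 * (b : ℚ) ≠ 0 := by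
    have h1 : ((a ^ 2 - 4 * b : ℤ) : ℚ) ≠ 0 := by exact_mod_cast hd
    push_cast at h1
    exact h1
  obtain ⟨r, hr⟩ := cls hb hd (psi two_ne_zero hbq hdq) (fun P hP => psi_sq _ hbq hdq P hP)
  obtain ⟨s, hs⟩ := R8_cls rfl rfl hb hd hbq hdq
  exact R8_comb (phi2 (rel2 two_ne_zero hbq hdq)) (psi two_ne_zero hbq hdq)
    (psi_add _ hbq hdq) (psi_phi _ hbq hdq) r hr s hs

end HYR
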