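import Pool.Agent.Lib.MP_10e784_agHR.Defs

/-!
# Block R2, leaf R9a: the short model

`short_eq`: the formulas of `variableChange_a₂`, `a₄`, `a₆` (see `E2_dual`, `E3_shift` in `MP_1a91b9_nuI/Glob.lean`): the substitution `x = X / 9 - a / 3`, `y = Y / 27` of
`y² = x³ + a x² + b x` gives `Y² = X³ + 27 (3 b - a²) X + 27 a (2 a² - 9 b)`.
`short_dsc`: `dsc = -3^12 b² (a² - 4 b)`. `short`: `tp` (`tp_add`, `tp_bij`) for `C` the substitution; `MWS.Pt ℚ A B` is `(MWS.EW ℚ A B).toAffine.Point`. Its value at `(X, Y)`: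
`(vcX C X, vcY C X Y)`.
-/

set_option autoImplicit false

namespace HYR

open WeierstrassCurve Pool.Agent.Lib.MP_1a91b9_nuI

theorem short_dsc (a b : ℤ) : MWS.dsc (27 * (3 * b - a ^ 2)) (27 * a * (2 * a ^ 2 - 9 * b)) =
    -(3 ^ 12 * b ^ 2 * (a ^ 2 - 4 * b)) := by
  unfold MWS.dsc
  ring

theorem short_eq (a b : ℤ) : (⟨(Units.mk0 3 three_ne_zero)⁻¹, -(a : ℚ) / 3, 0, 0⟩ : VariableChange ℚ) • E2 (a : ℚ) (b : ℚ) =
    MWS.EW ℚ (27 * (3 * b - a ^ 2)) (27 * a * (2 * a ^ 2 - 9 * b)) := by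
  ext
  · simp [variableChange_a₁, E2, MWS.EW]
  · simp only [variableChange_a₂, E2, MWS.EW, inv_inv, Units.val_mk0]
    ring
  · simp [variableChange_a₃, E2, MWS.EW]
  · simp only [variableChange_a₄, E2, MWS.EW, inv_inv, Units.val_mk0]
    push_cast
    ring
  · simp only [variableChange_a₆, E2, MWS.EW, inv_inv, Units.val_mk0]
    push_cast
    ring

/-- the isomorphism with the short model -/
theorem short (a b : ℤ) :
    ∃ f : MWS.Pt ℚ (27 * (3 * b - a ^ 2)) (27 * a * (2 * a ^ 2 - 9 * b)) → (E2 (a : ℚ) (b : ℚ)).toAffine.Point,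
      Function.Bijective f ∧ (∀ P Q, f (P + Q) = f P + f Q) ∧
      (∀ X Y hXY, ∃ h, f (Affine.Point.some X Y hXY) = Affine.Point.some (X / 9 - a / 3) (Y / 27) h) := by
  refine ⟨tp _ _ _ (short_eq a b), tp_bij _ _ _ _, tp_add _ _ _ _, fun X Y hXY => ?_⟩
  have hX : Pool.Agent.Lib.MP_1a91b9_nt.vcX (⟨(Units.mk0 3 three_ne_zero)⁻¹, -(a : ℚ) / 3, 0, 0⟩ : VariableChange ℚ) X =
      X / 9 - a / 3 := by
    simp only [Pool.Agent.Lib.MP_1a91b9_nt.vcX, Units.val_inv_eq_inv_val, Units.val_mk0]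
    ring
  have hY : Pool.Agent.Lib.MP_1a91b9_nt.vcY (⟨(Units.mk0 3 three_ne_zero)⁻¹, -(a : ℚ) / 3, 0, 0⟩ : VariableChange ℚ) X Y =
      Y / 27 := by
    simp only [Pool.Agent.Lib.MP_1a91b9_nt.vcY, Units.val_inv_eq_inv_val, Units.val_mk0]
    ring
  have key : ∀ (x y : ℚ) (h : (E2 (a : ℚ) (b : ℚ)).toAffine.Nonsingular x y) (x' y' : ℚ), x = x' → y = y' →
      ∃ h', (Affine.Point.some x y h : (E2 (a : ℚ) (b : ℚ)).toAffine.Point) = Affine.Point.some x' y' h' := by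
    intro x y h x' y' hx hy
    subst hx hy
    exact ⟨h, rfl⟩
  exact key _ _ _ _ _ hX hY

end HYR
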