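import Pool.Agent.Lib.MP_10e784_agHR.R8
import Pool.Agent.Lib.MP_10e784_agHR.R9a

/-!
# Block R2, leaf R9: the bound for the short model

`f` of `short`, `g` its inverse. `few2`: `f P = r i + 2 • Q`, `Q = f Q'`, `r i = f (g (r i))`, so `f P = f (g (r i) + 2 • Q')` (`two_nsmul` and additivity), `f` injective.
-/

set_option autoImplicit false

namespace HYR

open WeierstrassCurve Pool.Agent.Lib.MP_1a91b9_nuI

theorem few_short {a b : ℤ} (hb : b ≠ 0) (hd : a ^ 2 - 4 * b ≠ 0) :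
    MWS.Few (27 * (3 * b - a ^ 2)) (27 * a * (2 * a ^ 2 - 9 * b))
      (b.natAbs.primeFactors.card + (a ^ 2 - 4 * b).natAbs.primeFactors.card + 2) := by
  obtain ⟨f, hf, hadd, -⟩ := short a b
  obtain ⟨r, hr⟩ := few2 hb hd
  obtain ⟨g, hg1, hg2⟩ := Function.bijective_iff_has_inverse.1 hf
  refine ⟨fun i => g (r i), fun P => ?_⟩
  obtain ⟨i, Q, hQ⟩ := hr (f P)
  refine ⟨i, g Q, hf.1 ?_⟩
  rw [hadd, two_nsmul, hadd, hg2, hg2, hQ, two_nsmul]

end HYR
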